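import Mathlib
import Pool.Agent.H964Z.MixC

set_option autoImplicit false
open MeasureTheory Set
open scoped ENNReal symmDiff

namespace Pool.Agent.Results.MP_bfd36a_an.ADenseConj

open Pool.Agent.H964Z.MixD

/-- On a standard space with a σ-finite non-atomic infinite measure, let `T` and `S` be mixing
automorphisms. (1) For every sequence `A` of sets of finite measure (dense or not) for which the
Halmos distance takes finite values, conjugates of `T` come arbitrarily close to `S` in `r_∞`.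
(2) The same without a sequence: for every set `G` of finite measure and `ε > 0` one conjugate of
`T` is `ε`-close to `S` on all subsets of `G`, uniformly over all powers. -/
theorem result {X : Type*} [MeasurableSpace X] [StandardBorelSpace X] (μ : Measure X)
    [SigmaFinite μ] (hat : ∀ x, μ {x} = 0) (hinf : μ univ = ∞) (T S : X ≃ᵐ X)
    (hT : MeasurePreserving T μ μ) (hS : MeasurePreserving S μ μ)
    (mT : Mixing μ T) (mS : Mixing μ S) (ε : ℝ≥0∞) (hε : 0 < ε) :
    (∀ A : ℕ → Set X, (∀ i, MeasurableSet (A i) ∧ μ (A i) ≠ ∞) →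
      (∀ U V : X ≃ᵐ X, MeasurePreserving U μ μ → MeasurePreserving V μ μ → rho μ A U V ≠ ∞) →
      ∃ R : X ≃ᵐ X, MeasurePreserving R μ μ ∧ rInf μ A S (conj T R) < ε) ∧
    ∀ G : Set X, MeasurableSet G → μ G ≠ ∞ → ∃ R : X ≃ᵐ X, MeasurePreserving R μ μ ∧
      (∀ A ⊆ G, μ ((S '' A) ∆ (conj T R '' A)) ≤ ε ∧
        μ ((S.symm '' A) ∆ ((conj T R).symm '' A)) ≤ ε) ∧
      ∀ A ⊆ G, ∀ B ⊆ G, MeasurableSet A → MeasurableSet B → ∀ n : ℕ,
        ENNReal.ofReal |(μ ((S : X → X)^[n] '' A ∩ B)).toReal -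
          (μ ((conj T R : X → X)^[n] '' A ∩ B)).toReal| ≤ ε := by
  have : NullSingletonClass μ := ⟨hat⟩
  refine ⟨fun A hA hs => Pool.Agent.H964Z.Gen.dense_conj hinf (fun i => (hA i).1)
    (Pool.Agent.H964Z.Gen.summable_of_rho hinf (fun i => (hA i).1) (fun i => (hA i).2) hs)
    hS hT mS mT hε, fun G hG fG => ?_⟩
  obtain ⟨R, h1, -, h2⟩ := Pool.Agent.H964Z.Gen.approx_sets hinf hS hT mS mT hG fG hε
  exact ⟨R, h1, h2⟩

end Pool.Agent.Results.MP_bfd36a_an.ADenseConj
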